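import Mathlib

/-!
# The combinatorial core: a point in all members of an open expansion
-/

namespace Pool.Agent.Q307.BoxP.Core

open Cardinal Set

universe u

variable {K I : Type u}

/-- functions agreeing with `x` on `D` -/
def Ag (D : Set K) (x : K → I) : Set (K → I) := {y | ∀ a ∈ D, y a = x a}

/-- `(B, z)` is good for the set `U` -/
def Good (U : Set (K → I)) (B : Set K) (z : K → I) : Prop :=
  ∀ C : Set K, #C ≤ #I → ∃ (G : Set K) (w : K → I), #G ≤ #I ∧
    (∀ a ∈ G, a ∈ B → w a = z a) ∧ G ∩ C ⊆ B ∧ Ag G w ⊆ U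

lemma Good.mono {U : Set (K → I)} {B B' : Set K} {z z' : K → I} (h : Good U B z)
    (hB : B ⊆ B') (hz : ∀ a ∈ B, z' a = z a) (hcard : #B' ≤ #I) (hI : ℵ₀ ≤ #I) :
    Good U B' z' := by
  intro C hC
  obtain ⟨G, w, h1, h2, h3, h4⟩ := h (C ∪ B') (by
    refine (Cardinal.mk_union_le C B').trans ?_
    exact Cardinal.add_le_of_le hI hC hcard)
  refine ⟨G, w, h1, ?_, ?_, h4⟩
  · intro a ha hab
    have haB : a ∈ B := h3 ⟨ha, Or.inr hab⟩
    rw [h2 a ha haB, hz a haB]
  · rintro a ⟨ha, haC⟩
    exact hB (h3 ⟨ha, Or.inl haC⟩)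

open Classical in
/-- a bad set -/
noncomputable def bad (U : Set (K → I)) (B : Set K) (z : K → I) : Set K :=
  if h : ∃ C : Set K, #C ≤ #I ∧ ¬ ∃ (G : Set K) (w : K → I), #G ≤ #I ∧
    (∀ a ∈ G, a ∈ B → w a = z a) ∧ G ∩ C ⊆ B ∧ Ag G w ⊆ U then h.choose else ∅

lemma bad_card (U : Set (K → I)) (B : Set K) (z : K → I) : #(bad U B z) ≤ #I := by
  unfold bad
  split_ifs with h
  · exact h.choose_spec.1
  · simp

lemma bad_spec {U : Set (K → I)} {B : Set K} {z : K → I} (h : ¬ Good U B z) :
    ¬ ∃ (G : Set K) (w : K → I), #G ≤ #I ∧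
    (∀ a ∈ G, a ∈ B → w a = z a) ∧ G ∩ bad U B z ⊆ B ∧ Ag G w ⊆ U := by
  have h' : ∃ C : Set K, #C ≤ #I ∧ ¬ ∃ (G : Set K) (w : K → I), #G ≤ #I ∧
    (∀ a ∈ G, a ∈ B → w a = z a) ∧ G ∩ C ⊆ B ∧ Ag G w ⊆ U := by
    by_contra hcon
    apply h
    intro C hC
    by_contra h2
    exact hcon ⟨C, hC, h2⟩
  unfold bad
  rw [dif_pos h']
  exact h'.choose_spec.2

section
variable [Nonempty I]

lemma exists_inj (C : Set K) (hC : #C ≤ #I) : ∃ f : K → I, Set.InjOn f C := by
  obtain ⟨g⟩ := Cardinal.le_def _ _ |>.mp hC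
  classical
  refine ⟨fun a => if h : a ∈ C then g ⟨a, h⟩ else Classical.arbitrary I, ?_⟩
  intro a ha b hb hab
  simp only [dif_pos ha, dif_pos hb] at hab
  exact congrArg Subtype.val (g.injective hab)

open Classical in
/-- an injection of `C` -/
noncomputable def ic (C : Set K) : K → I :=
  if h : #C ≤ #I then (exists_inj C h).choose else fun _ => Classical.arbitrary I

lemma ic_inj (C : Set K) (h : #C ≤ #I) : Set.InjOn (ic C : K → I) C := by
  unfold ic
  rw [dif_pos h]
  exact (exists_inj C h).choose_spec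

variable (T : Type u) (r : T → T → Prop) [IsWellOrder T r] (e : T × I → I)

open Classical in
/-- the function read off from a family -/
noncomputable def Z (C : T → Set K) : K → I := fun a =>
  if h : ∃ s, a ∈ C s then
    e ((IsWellFounded.wf (r := r)).min {s | a ∈ C s} h,
      ic (C ((IsWellFounded.wf (r := r)).min {s | a ∈ C s} h)) a)
  else Classical.arbitrary I

variable {T r e}

lemma Z_eq {C : T → Set K} {a : K} {s : T} (hs : a ∈ C s) (hmin : ∀ s', r s' s → a ∉ C s') :
    Z T r e C a = e (s, ic (C s) a) := by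
  have h : ∃ s, a ∈ C s := ⟨s, hs⟩
  have key : (IsWellFounded.wf (r := r)).min {s | a ∈ C s} h = s := by
    have h1 : a ∈ C ((IsWellFounded.wf (r := r)).min {s | a ∈ C s} h) :=
      (IsWellFounded.wf (r := r)).min_mem {s | a ∈ C s} h
    have h2 : ¬ r s ((IsWellFounded.wf (r := r)).min {s | a ∈ C s} h) :=
      (IsWellFounded.wf (r := r)).not_lt_min {s | a ∈ C s} hs
    rcases trichotomous_of r ((IsWellFounded.wf (r := r)).min {s | a ∈ C s} h) s with h3 | h3 | h3
    · exact absurd h1 (hmin _ h3)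
    · exact h3
    · exact absurd h3 h2
  unfold Z
  rw [dif_pos h, key]

lemma exists_first {C : T → Set K} {a : K} (h : ∃ s, a ∈ C s) :
    ∃ s, a ∈ C s ∧ ∀ s', r s' s → a ∉ C s' := by
  refine ⟨(IsWellFounded.wf (r := r)).min {s | a ∈ C s} h,
    (IsWellFounded.wf (r := r)).min_mem {s | a ∈ C s} h, ?_⟩
  intro s' hs' ha
  exact (IsWellFounded.wf (r := r)).not_lt_min {s | a ∈ C s} ha hs'

lemma Z_inj {C : T → Set K} (he : Function.Injective e) (hC : ∀ t, #(C t) ≤ #I) :
    Set.InjOn (Z T r e C) (⋃ t, C t) := by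
  intro a ha b hb hab
  obtain ⟨s, hs, hmin⟩ := exists_first (r := r) (Set.mem_iUnion.mp ha)
  obtain ⟨s', hs', hmin'⟩ := exists_first (r := r) (Set.mem_iUnion.mp hb)
  rw [Z_eq hs hmin, Z_eq hs' hmin'] at hab
  have h := he hab
  rw [Prod.mk.injEq] at h
  obtain ⟨h1, h2⟩ := h
  subst h1
  exact ic_inj (C s) (hC s) hs hs' h2

variable (r) in
open Classical in
/-- truncation -/
def tr (C : T → Set K) (t : T) : T → Set K := fun s => if r s t then C s else ∅

lemma mem_tr {C : T → Set K} {t s : T} {a : K} : a ∈ tr r C t s ↔ r s t ∧ a ∈ C s := by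
  unfold tr
  split_ifs with h
  · simp [h]
  · simp [h]

lemma Z_tr {C : T → Set K} {t : T} {a : K} (ha : a ∈ ⋃ s, tr r C t s) :
    Z T r e C a = Z T r e (tr r C t) a := by
  obtain ⟨s, hs, hmin⟩ := exists_first (r := r) (Set.mem_iUnion.mp ha)
  have hs' := mem_tr.mp hs
  have hCs : tr r C t s = C s := by
    unfold tr
    rw [if_pos hs'.1]
  rw [Z_eq hs hmin, Z_eq hs'.2, hCs]
  intro s' hss' ha'
  exact hmin s' hss' (mem_tr.mpr ⟨_root_.trans hss' hs'.1, ha'⟩)

variable (r e) in
open Classical in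
/-- the recursion -/
noncomputable def fam (U : T → Set (K → I)) : T → Set K :=
  (IsWellFounded.wf (r := r)).fix fun t ih =>
    bad (U t) (⋃ s, (fun s => if h : r s t then ih s h else ∅ : T → Set K) s)
      (Z T r e (fun s => if h : r s t then ih s h else ∅))

lemma fam_eq (U : T → Set (K → I)) (t : T) :
    fam r e U t = bad (U t) (⋃ s, tr r (fam r e U) t s) (Z T r e (tr r (fam r e U) t)) := by
  conv_lhs => unfold fam
  rw [WellFounded.fix_eq]
  rfl

end

variable [Infinite I]

/-- Main combinatorial statement. -/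
theorem core (v : ℕ → I) (U : ℕ → Set (K → I))
    (hU : ∀ n, ∀ w : K → I, (∀ ξ, ξ ≠ v n → (w ⁻¹' {ξ}).Subsingleton) →
      ∃ G : Set K, #G < #I ∧ Ag G w ⊆ U n) :
    ∃ y : K → I, ∀ n, y ∈ U n := by
  classical
  have hI : ℵ₀ ≤ #I := Cardinal.aleph0_le_mk I
  let T : Type u := ULift.{u} ℕ × I
  let r : T → T → Prop := WellOrderingRel
  have hT : #T = #I := by
    have : #T = #(ULift.{u} ℕ) * #I := Cardinal.mk_prod _ _ |>.trans (by simp)
    rw [this, Cardinal.mk_uLift, Cardinal.mk_nat]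
    simp only [Cardinal.lift_aleph0]
    exact Cardinal.aleph0_mul_eq hI
  have hTI : #(T × I) ≤ #I := by
    have : #(T × I) = #T * #I := by simp [Cardinal.mk_prod]
    rw [this, hT, Cardinal.mul_eq_self hI]
  obtain ⟨e⟩ := Cardinal.le_def _ _ |>.mp hTI
  let C : T → Set K := fam r e (fun t => U t.1.down)
  have hCcard : ∀ t, #(C t) ≤ #I := by
    intro t
    show #(fam r e (fun t => U t.1.down) t) ≤ #I
    rw [fam_eq]
    exact bad_card _ _ _
  let B : Set K := ⋃ t, C t
  have hsub : ∀ (D : T → Set K), (∀ t, #(D t) ≤ #I) → #(⋃ t, D t : Set K) ≤ #I := by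
    intro D hD
    refine (Cardinal.mk_iUnion_le_sum_mk).trans ?_
    refine (Cardinal.sum_le_mk_mul_iSup _).trans ?_
    rw [hT]
    refine (mul_le_mul' le_rfl (ciSup_le' hD)).trans ?_
    rw [Cardinal.mul_eq_self hI]
  have hB : #B ≤ #I := hsub C hCcard
  let z : K → I := Z T r e C
  have hzinj : Set.InjOn z B := Z_inj e.injective hCcard
  have hgood : ∀ n, Good (U n) B z := by
    intro n
    by_contra hng
    have hbad : ∀ i : I, ¬ Good (U n) (⋃ s, tr r C (⟨n⟩, i) s) (Z T r e (tr r C (⟨n⟩, i))) := by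
      intro i hg
      apply hng
      refine hg.mono ?_ ?_ hB hI
      · refine Set.iUnion_mono fun s => ?_
        intro a ha
        exact (mem_tr.mp ha).2
      · intro a ha
        exact Z_tr ha
    let w : K → I := fun a => if a ∈ B then z a else v n
    obtain ⟨G, hG, hGU⟩ := hU n w (by
      intro ξ hξ a ha b hb
      have ha' : w a = ξ := ha
      have hb' : w b = ξ := hb
      have haB : a ∈ B := by
        by_contra h
        apply hξ
        rw [← ha']
        exact if_neg h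
      have hbB : b ∈ B := by
        by_contra h
        apply hξ
        rw [← hb']
        exact if_neg h
      have h1 : w a = z a := if_pos haB
      have h2 : w b = z b := if_pos hbB
      exact hzinj haB hbB (by rw [← h1, ← h2, ha', hb']))
    have hpt : ∀ i : I, ∃ a ∈ G, a ∈ C (⟨n⟩, i) ∧ a ∉ ⋃ s, tr r C (⟨n⟩, i) s := by
      intro i
      by_contra hcon
      push Not at hcon
      apply bad_spec (hbad i)
      refine ⟨G, w, hG.le, ?_, ?_, hGU⟩
      · intro a _ ha
        have haB : a ∈ B := by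
          obtain ⟨s, hs⟩ := Set.mem_iUnion.mp ha
          exact Set.mem_iUnion.mpr ⟨s, (mem_tr.mp hs).2⟩
        have h1 : w a = z a := if_pos haB
        rw [h1]
        exact Z_tr ha
      · rintro a ⟨haG, haC⟩
        apply hcon a haG
        show a ∈ fam r e (fun t => U t.1.down) (⟨n⟩, i)
        rw [fam_eq]
        exact haC
    choose g hgG hgC hgn using hpt
    have ginj : Function.Injective g := by
      intro i i' hii
      by_contra hne
      have hne' : ((⟨n⟩, i) : T) ≠ (⟨n⟩, i') := by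
        intro h
        exact hne (Prod.ext_iff.mp h).2
      rcases trichotomous_of r ((⟨n⟩, i) : T) (⟨n⟩, i') with h | h | h
      · apply hgn i'
        rw [← hii]
        exact Set.mem_iUnion.mpr ⟨(⟨n⟩, i), mem_tr.mpr ⟨h, hgC i⟩⟩
      · exact hne' h
      · apply hgn i
        rw [hii]
        exact Set.mem_iUnion.mpr ⟨(⟨n⟩, i'), mem_tr.mpr ⟨h, hgC i'⟩⟩
    have hle : #I ≤ #G := Cardinal.mk_le_of_injective (f := fun i => (⟨g i, hgG i⟩ : G))
      (fun i i' h => ginj (congrArg Subtype.val h))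
    exact absurd hG (not_lt.mpr hle)
  choose G w hG1 hG2 hG3 hG4 using
    (fun (n : ℕ) (S : {S : Set K // #S ≤ #I}) => hgood n S.1 S.2)
  let S : ℕ → {S : Set K // #S ≤ #I} := fun n => Nat.rec ⟨B, hB⟩ (fun n S => ⟨S.1 ∪ G n S,
    (Cardinal.mk_union_le _ _).trans (Cardinal.add_le_of_le hI S.2 (hG1 n S))⟩) n
  have hS : ∀ n, (S (n + 1)).1 = (S n).1 ∪ G n (S n) := fun n => rfl
  have hmono : Monotone fun n => (S n).1 := monotone_nat_of_le_succ fun n => by
    show (S n).1 ⊆ (S (n + 1)).1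
    rw [hS]
    exact Set.subset_union_left
  have hdis : ∀ m n, m < n → ∀ a, a ∈ G m (S m) → a ∈ G n (S n) → a ∈ B := by
    intro m n hmn a ham han
    apply hG3 n (S n)
    refine ⟨han, ?_⟩
    have h1 : a ∈ (S (m + 1)).1 := by
      rw [hS]
      exact Or.inr ham
    exact hmono (Nat.succ_le_of_lt hmn) h1
  let y : K → I := fun a => if a ∈ B then z a else
    if h : ∃ n, a ∈ G n (S n) then w h.choose (S h.choose) a else v 0
  refine ⟨y, fun n => ?_⟩
  apply hG4 n (S n)
  intro a ha
  by_cases haB : a ∈ B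
  · have h1 : y a = z a := if_pos haB
    rw [h1, hG2 n (S n) a ha haB]
  · have h1 : ∃ n, a ∈ G n (S n) := ⟨n, ha⟩
    have h2 : y a = w h1.choose (S h1.choose) a := by
      show (if a ∈ B then z a else
        if h : ∃ n, a ∈ G n (S n) then w h.choose (S h.choose) a else v 0) = _
      rw [if_neg haB, dif_pos h1]
    have h3 : h1.choose = n := by
      rcases lt_trichotomy h1.choose n with h | h | h
      · exact absurd (hdis _ _ h a h1.choose_spec ha) haB
      · exact h
      · exact absurd (hdis _ _ h a ha h1.choose_spec) haB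
    rw [h2, h3]

end Pool.Agent.Q307.BoxP.Core
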