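import Mathlib

/-!
# The box power with supports below kappa, and metanormal spaces
-/

namespace Pool.Agent.Q307.BoxP

open Cardinal Set

universe u

/-- The underlying set of the box power: all functions from `κ⁺` to `κ`. -/
def Pow (κ : Cardinal.{u}) : Type u :=
  (Order.succ κ).ord.ToType → κ.ord.ToType

/-- `E D x`: the functions that agree with `x` on the set `D` of coordinates. -/
def E {κ : Cardinal.{u}} (D : Set (Order.succ κ).ord.ToType) (x : Pow κ) : Set (Pow κ) :=
  {y | ∀ a ∈ D, y a = x a}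

/-- The topology in which the sets `E D x`, `|D| < κ`, form a neighbourhood base at `x`. -/
def boxTopology (κ : Cardinal.{u}) (hκ : ℵ₀ ≤ κ) : TopologicalSpace (Pow κ) where
  IsOpen U := ∀ x ∈ U, ∃ D : Set (Order.succ κ).ord.ToType, #D < κ ∧ E D x ⊆ U
  isOpen_univ := fun x _ => ⟨∅, by
    rw [Cardinal.mk_emptyCollection]
    exact lt_of_lt_of_le Cardinal.aleph0_pos hκ, Set.subset_univ _⟩
  isOpen_inter := by
    rintro U V hU hV x ⟨hxU, hxV⟩
    obtain ⟨D, hD, hDU⟩ := hU x hxU
    obtain ⟨D', hD', hDV⟩ := hV x hxV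
    refine ⟨D ∪ D', ?_, ?_⟩
    · exact lt_of_le_of_lt (Cardinal.mk_union_le D D') (Cardinal.add_lt_of_lt hκ hD hD')
    · intro y hy
      exact ⟨hDU fun a ha => hy a (Or.inl ha), hDV fun a ha => hy a (Or.inr ha)⟩
  isOpen_sUnion := by
    rintro S hS x ⟨U, hU, hxU⟩
    obtain ⟨D, hD, hDU⟩ := hS U hU x hxU
    exact ⟨D, hD, hDU.trans (Set.subset_sUnion_of_mem hU)⟩

/-- A sequence of sets is discrete: every point has an open neighbourhood that meets at most
one of them (as an indexed sequence). -/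
def DiscreteSeq {X : Type u} [TopologicalSpace X] (F : ℕ → Set X) : Prop :=
  ∀ x, ∃ V, IsOpen V ∧ x ∈ V ∧
    ∀ m n, (V ∩ F m).Nonempty → (V ∩ F n).Nonempty → m = n

/-- Every discrete sequence of closed sets has a point-finite open expansion. -/
def Metanormal (X : Type u) [TopologicalSpace X] : Prop :=
  ∀ F : ℕ → Set X, (∀ n, IsClosed (F n)) → DiscreteSeq F →
    ∃ U : ℕ → Set X, (∀ n, IsOpen (U n) ∧ F n ⊆ U n) ∧ ∀ x, {n | x ∈ U n}.Finite

end Pool.Agent.Q307.BoxP
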